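import Mathlib

set_option autoImplicit false

/-!
# Project W3: forms in the `d`-th powers of the variables which vanish on a plane
-/

open MvPolynomial

namespace Pool.Agent.V5helper77.W3

variable {L : Type*} [Field L]

/-- all exponents are divisible by `d` -/
def DivExp (d : ℕ) (g : MvPolynomial (Fin 3) L) : Prop := ∀ m, coeff m g ≠ 0 → ∀ j, d ∣ m j

lemma eval_eq_of_pow {d : ℕ} {g : MvPolynomial (Fin 3) L} (hg : DivExp d g) (v w : Fin 3 → L)
    (h : ∀ j, v j ^ d = w j ^ d) : eval v g = eval w g := by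
  rw [eval_eq', eval_eq']
  refine Finset.sum_congr rfl fun m hm => ?_
  congr 1
  refine Finset.prod_congr rfl fun j _ => ?_
  obtain ⟨c, hc⟩ := hg m (mem_support_iff.1 hm) j
  rw [hc, pow_mul, pow_mul, h j]

lemma eval_restrict (F : Fin 3 → Polynomial L) (g : MvPolynomial (Fin 3) L) (t : L) :
    (aeval F g).eval t = eval (fun j => (F j).eval t) g := by
  induction g using MvPolynomial.induction_on with
  | C a => simp
  | add p q hp hq => rw [map_add, Polynomial.eval_add, hp, hq, map_add]
  | mul_X p n hp => rw [map_mul, Polynomial.eval_mul, hp, map_mul, aeval_X, eval_X]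

lemma vanish {D : ℕ} (F : Fin 3 → Polynomial L) (hF : ∀ j, (F j).natDegree ≤ 1) (g : MvPolynomial (Fin 3) L)
    (hg : g.totalDegree ≤ D) (s : Finset L) (hs : D < s.card) (h : ∀ t ∈ s, eval (fun j => (F j).eval t) g = 0)
    (t : L) : eval (fun j => (F j).eval t) g = 0 := by
  have h1 : (aeval F g).natDegree ≤ D * 1 := aeval_natDegree_le g hg F hF
  have h2 : aeval F g = 0 := by
    refine Polynomial.eq_zero_of_natDegree_lt_card_of_eval_eq_zero' _ s (fun u hu => ?_) (by omega)
    rw [eval_restrict]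
    exact h u hu
  rw [← eval_restrict, h2, Polynomial.eval_zero]

/-- Lemma A. -/
theorem zero_of_vanish [Infinite L] {d D : ℕ} (hd : 0 < d) {ω : L} (hω : IsPrimitiveRoot ω d)
    {g : MvPolynomial (Fin 3) L} (hg : DivExp d g) (hD : g.totalDegree ≤ D) (hDd : D < d * d)
    (hv : ∀ v : Fin 3 → L, v 0 + v 1 + v 2 = 0 → v 1 ≠ 0 → eval v g = 0) : g = 0 := by
  classical
  obtain ⟨μ, hμ⟩ : ∃ μ, μ = Polynomial.nthRootsFinset d (1 : L) := ⟨_, rfl⟩
  have hcard : μ.card = d := by rw [hμ]; exact hω.card_nthRootsFinset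
  have hmem : ∀ ζ ∈ μ, ζ ^ d = 1 := by
    intro ζ hζ
    rw [hμ] at hζ
    exact (Polynomial.mem_nthRootsFinset hd _).1 hζ
  have hne : ∀ ζ ∈ μ, ζ ≠ 0 := by
    intro ζ hζ h0
    have := hmem ζ hζ
    rw [h0, zero_pow hd.ne'] at this
    exact zero_ne_one this
  obtain ⟨S, hS⟩ : ∃ S : Finset ((L × L) × (L × L)), S = ((μ ×ˢ μ) ×ˢ (μ ×ˢ μ)).filter fun p => p.1 ≠ p.2 := ⟨_, rfl⟩
  obtain ⟨h, hh⟩ : ∃ h : MvPolynomial (Fin 3) L, h = X 1 * ∏ p ∈ S, (C (p.1.1 - p.2.1) * X 1 + C (p.1.2 - p.2.2) * X 2) :=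
    ⟨_, rfl⟩
  have hh0 : h ≠ 0 := by
    rw [hh]
    refine mul_ne_zero (X_ne_zero _) (Finset.prod_ne_zero_iff.2 fun p hp h0 => ?_)
    rw [hS, Finset.mem_filter] at hp
    apply hp.2
    have e1 := congrArg (eval ![0, 1, 0]) h0
    have e2 := congrArg (eval ![0, 0, 1]) h0
    simp at e1 e2
    exact Prod.ext (sub_eq_zero.1 e1) (sub_eq_zero.1 e2)
  have key : g * h = 0 := by
    refine MvPolynomial.funext fun v => ?_
    rw [map_mul, map_zero]
    by_cases hv0 : eval v h = 0
    · rw [hv0, mul_zero]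
    · rw [hh, map_mul, map_prod] at hv0
      have hv1 : v 1 ≠ 0 := by
        intro h1
        apply hv0
        rw [eval_X, h1, zero_mul]
      have hv2 : ∀ p ∈ S, (p.1.1 - p.2.1) * v 1 + (p.1.2 - p.2.2) * v 2 ≠ 0 := by
        intro p hp h1
        apply hv0
        rw [Finset.prod_eq_zero hp, mul_zero]
        simpa using h1
      have hF : ∀ j, (![Polynomial.X, Polynomial.C (v 1), Polynomial.C (v 2)] j : Polynomial L).natDegree ≤ 1 := by
        intro j
        fin_cases j
        · exact Polynomial.natDegree_X_le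
        · simp
        · simp
      have hpt : ∀ t : L, (fun j => (![Polynomial.X, Polynomial.C (v 1), Polynomial.C (v 2)] j : Polynomial L).eval t) =
          ![t, v 1, v 2] := by
        intro t
        funext j
        fin_cases j <;> simp
      have hinj : Set.InjOn (fun p : L × L => -(p.1 * v 1 + p.2 * v 2)) (μ ×ˢ μ : Finset (L × L)) := by
        intro p hp q hq hpq
        by_contra hne'
        have h1 : (p, q) ∈ S := by
          rw [hS, Finset.mem_filter]
          exact ⟨Finset.mem_product.2 ⟨hp, hq⟩, hne'⟩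
        apply hv2 _ h1
        have h2 : -(p.1 * v 1 + p.2 * v 2) = -(q.1 * v 1 + q.2 * v 2) := hpq
        linear_combination -h2
      have h3 := vanish _ hF g hD ((μ ×ˢ μ).image fun p : L × L => -(p.1 * v 1 + p.2 * v 2))
        (by rw [Finset.card_image_of_injOn hinj, Finset.card_product, hcard]; exact hDd) ?_ (v 0)
      · rw [hpt] at h3
        have h4 : (![v 0, v 1, v 2] : Fin 3 → L) = v := by
          funext j
          fin_cases j <;> rfl
        rw [h4] at h3
        rw [h3, zero_mul]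
      · intro t ht
        obtain ⟨p, hp, rfl⟩ := Finset.mem_image.1 ht
        obtain ⟨hp1, hp2⟩ := Finset.mem_product.1 hp
        rw [hpt]
        rw [eval_eq_of_pow hg _ ![-(p.1 * v 1 + p.2 * v 2), p.1 * v 1, p.2 * v 2]]
        · refine hv _ ?_ ?_
          · simp
          · simpa using ⟨hne _ hp1, hv1⟩
        · intro j
          fin_cases j
          · rfl
          · simp [mul_pow, hmem _ hp1]
          · simp [mul_pow, hmem _ hp2]
  exact (mul_eq_zero.1 key).resolve_right hh0

end Pool.Agent.V5helper77.W3
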