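import Pool.Agent.V5helper30.W3.Stm
import Pool.Agent.V5helper77.W3.Base

set_option autoImplicit false

open MvPolynomial

namespace Pool.Agent.V5helper77.W3

open Pool.Agent.Helper720.Pow

lemma exists_root (L : Type*) [Field L] [CharZero L] [IsAlgClosed L] {d : ℕ} (hd : 0 < d) : ∃ ω : L, IsPrimitiveRoot ω d := by
  have : NeZero d := ⟨hd.ne'⟩
  have : NeZero ((d : ℕ) : L) := ⟨by exact_mod_cast hd.ne'⟩
  exact HasEnoughRootsOfUnity.exists_primitiveRoot L d

/-- the remainders -/
lemma mod_sum {d k r : ℕ} {m : Fin 3 →₀ ℕ} (hm : m.degree = d * k + r) (h : k ≤ fl d m) :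
    m 0 % d + m 1 % d + m 2 % d ≤ r := by
  rw [Finsupp.degree_eq_sum, Fin.sum_univ_three] at hm
  unfold fl at h
  rw [Fin.sum_univ_three] at h
  have h0 := Nat.div_add_mod (m 0) d
  have h1 := Nat.div_add_mod (m 1) d
  have h2 := Nat.div_add_mod (m 2) d
  have h3 := Nat.mul_le_mul_left d h
  rw [mul_add, mul_add] at h3
  omega

lemma divExp_map {K L : Type*} [Field K] [Field L] [Algebra K L] {d k : ℕ} (hd : 1 ≤ d) {g : MvPolynomial (Fin 3) K}
    (hg : g.IsHomogeneous (d * k)) (hI : g ∈ powIdeal K 3 d k) : DivExp d (map (algebraMap K L) g) := by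
  intro m hm j
  rw [coeff_map] at hm
  have h1 : coeff m g ≠ 0 := fun h => hm (by rw [h, map_zero])
  have h2 : m.degree = d * k := degree_of_coeff hg h1
  have h3 : k ≤ fl d m := by
    by_contra h
    exact h1 ((mem_powIdeal hd).1 hI m (by omega))
  have h4 := mod_sum (r := 0) (by rw [h2, add_zero]) h3
  apply Nat.dvd_of_mod_eq_zero
  fin_cases j
  · change m 0 % d = 0
    omega
  · change m 1 % d = 0
    omega
  · change m 2 % d = 0
    omega

lemma eval_el {K L : Type*} [Field K] [Field L] [Algebra K L] (v : Fin 3 → L) :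
    eval v (map (algebraMap K L) (el K 3)) = v 0 + v 1 + v 2 := by
  unfold el
  rw [map_sum, map_sum, Fin.sum_univ_three]
  simp

/-- Job P0. -/
theorem t_P0 (K : Type*) [Field K] [CharZero K] : Pool.Agent.V5helper30.W3.S_P0 K := by
  intro d k hk hkd f hf hI
  rw [pow_one] at hI
  have hd : 1 ≤ d := by omega
  have hdk : 1 ≤ d * k := Nat.mul_pos hd hk
  have hg : (el K 3 * f).IsHomogeneous (d * k) := by
    have := el_hom.mul hf (φ := el K 3)
    have e : 1 + (d * k - 1) = d * k := by omega
    rwa [e] at this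
  obtain ⟨ω, hω⟩ := exists_root (AlgebraicClosure K) hd
  have h0 : map (algebraMap K (AlgebraicClosure K)) (el K 3 * f) = 0 := by
    refine zero_of_vanish (D := d * k) hd hω (divExp_map hd hg hI) ?_ (Nat.mul_lt_mul_of_pos_left hkd hd) ?_
    · exact (hg.map _).totalDegree_le
    · intro v hv _
      rw [map_mul, map_mul, eval_el, hv, zero_mul]
  have h1 : el K 3 * f = 0 := by
    apply map_injective (algebraMap K (AlgebraicClosure K)) (algebraMap K (AlgebraicClosure K)).injective
    rw [h0, map_zero]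
  have h2 : f = 0 := (mul_eq_zero.1 h1).resolve_left (el_ne_zero (by norm_num))
  rw [h2]
  exact Ideal.zero_mem _

end Pool.Agent.V5helper77.W3
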