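import Pool.Agent.V5helper30.W3.Stm
import Pool.Agent.V5helper77.W3.P0

set_option autoImplicit false

open MvPolynomial

namespace Pool.Agent.V5helper77.W3

open Pool.Agent.Helper720.Pow

section general
variable {L : Type*} [Field L]

/-- the conjugate of an identity between roots of unity -/
lemma conj_identity [CharZero L] {d : ℕ} (hd : 0 < d) {ω : L} (hω : IsPrimitiveRoot ω d) (a b a' b' : ℕ)
    (h : (1 - ω ^ a) * (1 - ω ^ b') = (1 - ω ^ a') * (1 - ω ^ b)) :
    (1 - (ω⁻¹) ^ a) * (1 - (ω⁻¹) ^ b') = (1 - (ω⁻¹) ^ a') * (1 - (ω⁻¹) ^ b) := by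
  obtain ⟨F, hF⟩ : ∃ F : Polynomial ℚ, F = (1 - Polynomial.X ^ a) * (1 - Polynomial.X ^ b') -
    (1 - Polynomial.X ^ a') * (1 - Polynomial.X ^ b) := ⟨_, rfl⟩
  have h1 : ∀ x : L, Polynomial.aeval x F = (1 - x ^ a) * (1 - x ^ b') - (1 - x ^ a') * (1 - x ^ b) := by
    intro x
    rw [hF]
    simp
  have h2 : Polynomial.aeval ω F = 0 := by rw [h1, h, sub_self]
  have h3 : minpoly ℚ ω ∣ F := minpoly.dvd _ _ h2
  rw [← Polynomial.cyclotomic_eq_minpoly_rat hω hd, Polynomial.cyclotomic_eq_minpoly_rat hω.inv hd] at h3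
  have h4 : Polynomial.aeval ω⁻¹ F = 0 := Polynomial.aeval_eq_zero_of_dvd_aeval_eq_zero h3 (minpoly.aeval _ _)
  rw [h1] at h4
  exact sub_eq_zero.1 h4

lemma ratio_inj [CharZero L] {d : ℕ} (hd : 0 < d) {ω : L} (hω : IsPrimitiveRoot ω d) {ζ η ζ' η' : L}
    (h1 : ζ ^ d = 1) (h2 : η ^ d = 1) (h3 : ζ' ^ d = 1) (h4 : η' ^ d = 1) (hζ : ζ ≠ 1) (hη' : η' ≠ 1)
    (hne : ζ ≠ η) (h : (1 - ζ) * (1 - η') = (1 - ζ') * (1 - η)) : ζ = ζ' ∧ η = η' := by
  have : NeZero d := ⟨hd.ne'⟩
  have z1 : ζ ≠ 0 := fun h0 => by rw [h0, zero_pow hd.ne'] at h1; exact zero_ne_one h1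
  have z2 : η ≠ 0 := fun h0 => by rw [h0, zero_pow hd.ne'] at h2; exact zero_ne_one h2
  have z3 : ζ' ≠ 0 := fun h0 => by rw [h0, zero_pow hd.ne'] at h3; exact zero_ne_one h3
  have z4 : η' ≠ 0 := fun h0 => by rw [h0, zero_pow hd.ne'] at h4; exact zero_ne_one h4
  obtain ⟨a, -, ha⟩ := hω.eq_pow_of_pow_eq_one h1
  obtain ⟨b, -, hb⟩ := hω.eq_pow_of_pow_eq_one h2
  obtain ⟨a', -, ha'⟩ := hω.eq_pow_of_pow_eq_one h3
  obtain ⟨b', -, hb'⟩ := hω.eq_pow_of_pow_eq_one h4
  have h5 := conj_identity hd hω a b a' b' (by rw [ha, hb, ha', hb']; exact h)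
  rw [inv_pow, inv_pow, inv_pow, inv_pow, ha, hb, ha', hb'] at h5
  have h6 : (ζ - 1) * (η' - 1) * (ζ' * η) = (ζ' - 1) * (η - 1) * (ζ * η') := by
    have e1 : (1 - ζ⁻¹) * (1 - η'⁻¹) * (ζ * η') = (ζ - 1) * (η' - 1) := by field_simp
    have e2 : (1 - ζ'⁻¹) * (1 - η⁻¹) * (ζ' * η) = (ζ' - 1) * (η - 1) := by field_simp
    rw [← e1, ← e2, h5]
    ring
  have hA : (1 - ζ) * (1 - η') ≠ 0 := mul_ne_zero (sub_ne_zero.2 hζ.symm) (sub_ne_zero.2 hη'.symm)
  have h7 : ζ' * η = ζ * η' := by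
    apply mul_left_cancel₀ hA
    linear_combination h6 - (ζ * η') * h
  have h8 : ζ + η' = ζ' + η := by linear_combination -h - h7
  have h9 : (ζ - ζ') * (ζ - η) = 0 := by linear_combination ζ * h8 + h7
  have h10 : ζ = ζ' := sub_eq_zero.1 ((mul_eq_zero.1 h9).resolve_right (sub_ne_zero.2 hne))
  exact ⟨h10, by linear_combination h10 - h8⟩

lemma DivExp.sub {d : ℕ} {g h : MvPolynomial (Fin 3) L} (hg : DivExp d g) (hh : DivExp d h) : DivExp d (g - h) := by
  intro m hm j
  rw [coeff_sub] at hm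
  by_cases h1 : coeff m g = 0
  · refine hh m (fun h2 => hm (by rw [h1, h2, sub_zero])) j
  · exact hg m h1 j

lemma DivExp.sum {d : ℕ} {ι : Type*} (s : Finset ι) (g : ι → MvPolynomial (Fin 3) L) (hg : ∀ i ∈ s, DivExp d (g i)) :
    DivExp d (∑ i ∈ s, g i) := by
  intro m hm j
  rw [coeff_sum] at hm
  obtain ⟨i, hi, hi'⟩ := Finset.exists_ne_zero_of_sum_ne_zero hm
  exact hg i hi m hi' j

lemma DivExp.monomial {d : ℕ} (w : Fin 3 →₀ ℕ) (c : L) (hw : ∀ j, d ∣ w j) : DivExp d (monomial w c) := by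
  classical
  intro m hm j
  rw [coeff_monomial] at hm
  by_cases h : w = m
  · rw [← h]
    exact hw j
  · rw [if_neg h] at hm
    exact absurd rfl hm

/-- Lemma B. -/
theorem pair_zero [Infinite L] [CharZero L] {d D : ℕ} (hd : 3 ≤ d) {ω : L} (hω : IsPrimitiveRoot ω d)
    {R1 R2 : MvPolynomial (Fin 3) L} (h1 : DivExp d R1) (h2 : DivExp d R2) (hD1 : R1.totalDegree ≤ D)
    (hD2 : R2.totalDegree ≤ D) (hDd : D < (d - 1) * (d - 1) - (d - 1))
    (hv : ∀ v : Fin 3 → L, v 0 + v 1 + v 2 = 0 → v 0 * eval v R1 + v 1 * eval v R2 = 0) : R1 = 0 ∧ R2 = 0 := by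
  classical
  have hd0 : 0 < d := by omega
  obtain ⟨μ, hμ⟩ : ∃ μ, μ = Polynomial.nthRootsFinset d (1 : L) := ⟨_, rfl⟩
  have hcard : μ.card = d := by rw [hμ]; exact hω.card_nthRootsFinset
  have hmem : ∀ ζ ∈ μ, ζ ^ d = 1 := by
    intro ζ hζ
    rw [hμ] at hζ
    exact (Polynomial.mem_nthRootsFinset hd0 _).1 hζ
  have h1mem : (1 : L) ∈ μ := by
    rw [hμ]
    exact (Polynomial.mem_nthRootsFinset hd0 _).2 (one_pow d)
  have hDd2 : D < d * d := by
    have e : (d - 1) * (d - 1) ≤ d * d := Nat.mul_le_mul (by omega) (by omega)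
    omega
  have key : ∀ y : L, y ≠ 0 → ∀ t : L, eval ![t, y, -y - t] R1 = 0 ∧ eval ![t, y, -y - t] R2 = 0 := by
    intro y hy t
    have hF : ∀ j, (![Polynomial.X, Polynomial.C y, -Polynomial.C y - Polynomial.X] j : Polynomial L).natDegree ≤ 1 := by
      intro j
      fin_cases j
      · exact Polynomial.natDegree_X_le
      · simp
      · change (-Polynomial.C y - Polynomial.X : Polynomial L).natDegree ≤ 1
        refine (Polynomial.natDegree_sub_le _ _).trans ?_
        rw [Polynomial.natDegree_neg, Polynomial.natDegree_C, Polynomial.natDegree_X]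
        simp
    have hpt : ∀ t : L, (fun j => (![Polynomial.X, Polynomial.C y, -Polynomial.C y - Polynomial.X] j : Polynomial L).eval t) =
        ![t, y, -y - t] := by
      intro t
      funext j
      fin_cases j <;> simp
    obtain ⟨φ, hφ⟩ : ∃ φ : L × L → L, φ = fun p => y * (p.2 - p.1) / (1 - p.2) := ⟨_, rfl⟩
    have hinj : Set.InjOn φ ((μ.erase 1).offDiag : Finset (L × L)) := by
      intro p hp q hq hpq
      rw [Finset.mem_coe, Finset.mem_offDiag, Finset.mem_erase, Finset.mem_erase] at hp hq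
      obtain ⟨⟨p1, p1'⟩, ⟨p2, p2'⟩, p3⟩ := hp
      obtain ⟨⟨q1, q1'⟩, ⟨q2, q2'⟩, q3⟩ := hq
      have e1 : (1 - p.2) ≠ 0 := sub_ne_zero.2 (Ne.symm p2)
      have e2 : (1 - q.2) ≠ 0 := sub_ne_zero.2 (Ne.symm q2)
      rw [hφ] at hpq
      have e3 : y * (p.2 - p.1) / (1 - p.2) = y * (q.2 - q.1) / (1 - q.2) := hpq
      rw [div_eq_div_iff e1 e2] at e3
      have e4 : (1 - p.1) * (1 - q.2) = (1 - q.1) * (1 - p.2) := by
        apply mul_left_cancel₀ hy
        linear_combination e3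
      have := ratio_inj hd0 hω (hmem _ p1') (hmem _ p2') (hmem _ q1') (hmem _ q2') p1 q2 p3 e4
      exact Prod.ext this.1 this.2
    have hcs : D < (((μ.erase 1).offDiag).image φ).card := by
      rw [Finset.card_image_of_injOn hinj, Finset.offDiag_card, Finset.card_erase_of_mem h1mem, hcard]
      exact hDd
    have hpts : ∀ t ∈ ((μ.erase 1).offDiag).image φ, eval ![t, y, -y - t] R1 = 0 ∧ eval ![t, y, -y - t] R2 = 0 := by
      intro t ht
      obtain ⟨p, hp, hpt'⟩ := Finset.mem_image.1 ht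
      rw [Finset.mem_offDiag, Finset.mem_erase, Finset.mem_erase] at hp
      obtain ⟨⟨p1, p1'⟩, ⟨p2, p2'⟩, p3⟩ := hp
      have e1 : (1 - p.2) ≠ 0 := sub_ne_zero.2 (Ne.symm p2)
      have et : t * (1 - p.2) = y * (p.2 - p.1) := by
        rw [← hpt', hφ]
        exact div_mul_cancel₀ _ e1
      have t0 : t ≠ 0 := by
        intro h0
        rw [h0, zero_mul] at et
        exact mul_ne_zero hy (sub_ne_zero.2 (Ne.symm p3)) et.symm
      have f1 := hv ![t, y, -y - t] (by change t + y + (-y - t) = 0; ring)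
      have f2 := hv ![t, p.1 * y, p.2 * (-y - t)] (by change t + p.1 * y + p.2 * (-y - t) = 0; linear_combination et)
      have g1 : eval ![t, p.1 * y, p.2 * (-y - t)] R1 = eval ![t, y, -y - t] R1 := by
        apply eval_eq_of_pow h1
        intro j
        fin_cases j
        · rfl
        · simp [mul_pow, hmem _ p1']
        · simp [mul_pow, hmem _ p2']
      have g2 : eval ![t, p.1 * y, p.2 * (-y - t)] R2 = eval ![t, y, -y - t] R2 := by
        apply eval_eq_of_pow h2
        intro j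
        fin_cases j
        · rfl
        · simp [mul_pow, hmem _ p1']
        · simp [mul_pow, hmem _ p2']
      rw [g1, g2] at f2
      have f1' : t * eval ![t, y, -y - t] R1 + y * eval ![t, y, -y - t] R2 = 0 := f1
      have f2' : t * eval ![t, y, -y - t] R1 + (p.1 * y) * eval ![t, y, -y - t] R2 = 0 := f2
      have r2 : eval ![t, y, -y - t] R2 = 0 := by
        have : ((p.1 - 1) * y) * eval ![t, y, -y - t] R2 = 0 := by linear_combination f2' - f1'
        exact (mul_eq_zero.1 this).resolve_left (mul_ne_zero (sub_ne_zero.2 p1) hy)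
      refine ⟨?_, r2⟩
      rw [r2, mul_zero, add_zero] at f1'
      exact (mul_eq_zero.1 f1').resolve_left t0
    have v1 := vanish _ hF R1 hD1 _ hcs (fun t ht => by rw [hpt]; exact (hpts t ht).1) t
    have v2 := vanish _ hF R2 hD2 _ hcs (fun t ht => by rw [hpt]; exact (hpts t ht).2) t
    rw [hpt] at v1 v2
    exact ⟨v1, v2⟩
  have hvec : ∀ v : Fin 3 → L, v 0 + v 1 + v 2 = 0 → v = ![v 0, v 1, -v 1 - v 0] := by
    intro v h0
    funext j
    fin_cases j
    · rfl
    · rfl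
    · change v 2 = -v 1 - v 0
      linear_combination h0
  refine ⟨zero_of_vanish hd0 hω h1 hD1 hDd2 ?_, zero_of_vanish hd0 hω h2 hD2 hDd2 ?_⟩
  · intro v h0 hv1
    rw [hvec v h0]
    exact (key _ hv1 _).1
  · intro v h0 hv1
    rw [hvec v h0]
    exact (key _ hv1 _).2

/-- the part of `g` with the variable `l` -/
noncomputable def part (d : ℕ) (g : MvPolynomial (Fin 3) L) (l : Fin 3) : MvPolynomial (Fin 3) L :=
  ∑ m ∈ g.support.filter (fun m => m l % d = 1), monomial (m - Finsupp.single l 1) (coeff m g)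

lemma X_mul_part {d : ℕ} (g : MvPolynomial (Fin 3) L) (l : Fin 3) :
    X l * part d g l = ∑ m ∈ g.support, if m l % d = 1 then monomial m (coeff m g) else 0 := by
  unfold part
  rw [Finset.mul_sum, ← Finset.sum_filter]
  refine Finset.sum_congr rfl fun m hm => ?_
  have h1 : m l ≠ 0 := by
    intro h0
    have := (Finset.mem_filter.1 hm).2
    rw [h0, Nat.zero_mod] at this
    exact absurd this (by norm_num)
  have e : Finsupp.single l 1 + (m - Finsupp.single l 1) = m := by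
    apply add_tsub_cancel_of_le
    rw [Finsupp.single_le_iff]
    omega
  rw [X, monomial_mul, one_mul, e]

/-- the remainders of the exponents of `g` -/
def RemOne (d : ℕ) (g : MvPolynomial (Fin 3) L) : Prop :=
  ∀ m, coeff m g ≠ 0 → (m 0 % d = 1 ∧ m 1 % d = 0 ∧ m 2 % d = 0) ∨ (m 0 % d = 0 ∧ m 1 % d = 1 ∧ m 2 % d = 0) ∨
    (m 0 % d = 0 ∧ m 1 % d = 0 ∧ m 2 % d = 1)

lemma sum_parts {d : ℕ} {g : MvPolynomial (Fin 3) L} (hg : RemOne d g) :
    g = X 0 * part d g 0 + X 1 * part d g 1 + X 2 * part d g 2 := by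
  rw [X_mul_part, X_mul_part, X_mul_part, ← Finset.sum_add_distrib, ← Finset.sum_add_distrib]
  conv_lhs => rw [g.as_sum]
  refine Finset.sum_congr rfl fun m hm => ?_
  rcases hg m (mem_support_iff.1 hm) with ⟨h0, h1, h2⟩ | ⟨h0, h1, h2⟩ | ⟨h0, h1, h2⟩
  · rw [if_pos h0, if_neg (by omega), if_neg (by omega), add_zero, add_zero]
  · rw [if_neg (by omega), if_pos h1, if_neg (by omega), zero_add, add_zero]
  · rw [if_neg (by omega), if_neg (by omega), if_pos h2, zero_add, zero_add]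

lemma sub_dvd {d : ℕ} {m : Fin 3 →₀ ℕ} {l : Fin 3} (h : m l % d = 1) (h' : ∀ j, j ≠ l → m j % d = 0) (j : Fin 3) :
    d ∣ (m - Finsupp.single l 1 : Fin 3 →₀ ℕ) j := by
  rw [Finsupp.tsub_apply]
  by_cases hj : j = l
  · subst hj
    rw [Finsupp.single_eq_same]
    refine ⟨m j / d, ?_⟩
    have := Nat.div_add_mod (m j) d
    omega
  · rw [Finsupp.single_eq_of_ne hj, Nat.sub_zero]
    exact Nat.dvd_of_mod_eq_zero (h' j hj)

lemma part_div {d : ℕ} {g : MvPolynomial (Fin 3) L} (hg : RemOne d g) (l : Fin 3) : DivExp d (part d g l) := by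
  refine DivExp.sum _ _ fun m hm => DivExp.monomial _ _ ?_
  obtain ⟨hm1, hm2⟩ := Finset.mem_filter.1 hm
  refine sub_dvd hm2 fun j hj => ?_
  rcases hg m (mem_support_iff.1 hm1) with ⟨h0, h1, h2⟩ | ⟨h0, h1, h2⟩ | ⟨h0, h1, h2⟩
  all_goals
    fin_cases l <;> fin_cases j <;> simp_all

lemma part_hom {d D : ℕ} {g : MvPolynomial (Fin 3) L} (hg : g.IsHomogeneous (D + 1)) (l : Fin 3) :
    (part d g l).IsHomogeneous D := by
  refine IsHomogeneous.sum _ _ _ fun m hm => isHomogeneous_monomial _ ?_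
  obtain ⟨hm1, hm2⟩ := Finset.mem_filter.1 hm
  have h1 := degree_of_coeff hg (mem_support_iff.1 hm1)
  have h2 : m l ≠ 0 := by
    intro h0
    rw [h0, Nat.zero_mod] at hm2
    exact absurd hm2 (by norm_num)
  have h3 := degree_sub_single h2
  rw [h1] at h3
  omega

/-- P1 over an algebraically closed field. -/
theorem p1_closed [CharZero L] [IsAlgClosed L] {d k : ℕ} (hk : 1 ≤ k) (hkd : k + 3 ≤ d) : InjAt L 3 d k (d * k) 1 := by
  intro f hf hI
  rw [pow_one] at hI
  have hd : 1 ≤ d := by omega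
  have hg : (el L 3 * f).IsHomogeneous (d * k + 1) := by
    have := el_hom.mul hf (φ := el L 3)
    rwa [add_comm] at this
  have hR : RemOne d (el L 3 * f) := by
    intro m hm
    have h2 : m.degree = d * k + 1 := degree_of_coeff hg hm
    have h3 : k ≤ fl d m := by
      by_contra h
      exact hm ((mem_powIdeal hd).1 hI m (by omega))
    have h4 := mod_sum (r := 1) h2 h3
    have h5 : (m 0 + m 1 + m 2) % d = 1 := by
      rw [Finsupp.degree_eq_sum, Fin.sum_univ_three] at h2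
      rw [h2, Nat.mul_add_mod]
      exact Nat.mod_eq_of_lt (by omega)
    have h6 : m 0 % d + m 1 % d + m 2 % d ≠ 0 := by
      intro h0
      have e0 : m 0 % d = 0 := by omega
      have e1 : m 1 % d = 0 := by omega
      have e2 : m 2 % d = 0 := by omega
      have : (m 0 + m 1 + m 2) % d = 0 := Nat.mod_eq_zero_of_dvd
        (dvd_add (dvd_add (Nat.dvd_of_mod_eq_zero e0) (Nat.dvd_of_mod_eq_zero e1)) (Nat.dvd_of_mod_eq_zero e2))
      omega
    omega
  obtain ⟨ω, hω⟩ := exists_root L hd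
  obtain ⟨g, hgdef⟩ : ∃ g, g = el L 3 * f := ⟨_, rfl⟩
  rw [← hgdef] at hg hR
  have hdeg : ∀ l l', (part d g l - part d g l').totalDegree ≤ d * k := fun l l' =>
    ((part_hom hg l).sub (part_hom hg l')).totalDegree_le
  have hcount : d * k < (d - 1) * (d - 1) - (d - 1) := by
    obtain ⟨e, rfl⟩ : ∃ e, d = k + 3 + e := ⟨d - (k + 3), by omega⟩
    have e1 : k + 3 + e - 1 = k + 2 + e := by omega
    rw [e1]
    apply Nat.lt_sub_of_add_lt
    nlinarith [Nat.zero_le (e * k), Nat.zero_le (e * e)]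
  have hsum := sum_parts hR
  have hv : ∀ v : Fin 3 → L, v 0 + v 1 + v 2 = 0 →
      v 0 * eval v (part d g 0 - part d g 2) + v 1 * eval v (part d g 1 - part d g 2) = 0 := by
    intro v h0
    have h1 : eval v g = 0 := by
      rw [hgdef, map_mul]
      have := eval_el (K := L) v
      rw [Algebra.algebraMap_self, map_id] at this
      rw [this, h0, zero_mul]
    have h2 : eval v g = v 0 * eval v (part d g 0) + v 1 * eval v (part d g 1) + v 2 * eval v (part d g 2) := by
      conv_lhs => rw [hsum]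
      rw [map_add, map_add, map_mul, map_mul, map_mul, eval_X, eval_X, eval_X]
    rw [map_sub, map_sub]
    linear_combination h1 - h2 - (eval v (part d g 2)) * h0
  obtain ⟨r1, r2⟩ := pair_zero (by omega) hω ((part_div hR 0).sub (part_div hR 2)) ((part_div hR 1).sub (part_div hR 2))
    (hdeg 0 2) (hdeg 1 2) hcount hv
  have h3 : el L 3 * f = el L 3 * part d g 2 := by
    rw [← hgdef]
    conv_lhs => rw [hsum]
    rw [sub_eq_zero.1 r1, sub_eq_zero.1 r2]
    unfold el
    rw [Fin.sum_univ_three]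
    ring
  have h4 : f = part d g 2 := mul_left_cancel₀ (el_ne_zero (by norm_num)) h3
  rw [h4]
  refine mem_of_coeff hd (part_hom hg 2) fun w hw hlt => ?_
  by_contra hne
  have h5 := part_div hR 2 w hne
  have h6 : d * fl d w = w.degree := by
    unfold fl
    rw [Finset.mul_sum, Finsupp.degree_eq_sum]
    exact Finset.sum_congr rfl fun j _ => Nat.mul_div_cancel' (h5 j)
  rw [hw] at h6
  exact absurd (Nat.eq_of_mul_eq_mul_left hd h6) (by omega)

end general

lemma map_mem {K L : Type*} [Field K] [Field L] [Algebra K L] {d k : ℕ} (hd : 1 ≤ d) (f : MvPolynomial (Fin 3) K) :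
    map (algebraMap K L) f ∈ powIdeal L 3 d k ↔ f ∈ powIdeal K 3 d k := by
  rw [mem_powIdeal hd, mem_powIdeal hd]
  refine forall_congr' fun m => forall_congr' fun _ => ?_
  rw [coeff_map]
  exact map_eq_zero (algebraMap K L)

/-- Job P1. -/
theorem t_P1 (K : Type*) [Field K] [CharZero K] : Pool.Agent.V5helper30.W3.S_P1 K := by
  intro d k hk hkd f hf hI
  have hd : 1 ≤ d := by omega
  rw [← map_mem (L := AlgebraicClosure K) hd] at hI ⊢
  refine p1_closed hk hkd _ (hf.map _) ?_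
  have e : map (algebraMap K (AlgebraicClosure K)) (el K 3) = el (AlgebraicClosure K) 3 := by
    unfold el
    rw [map_sum]
    simp
  rwa [map_mul, map_pow, e] at hI

end Pool.Agent.V5helper77.W3
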